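import Mathlib

/-!
# Unramified classes in Galois cohomology with coefficients in `ℚ_l/ℤ_l(w)`

The definitions of this file are used in the statements of the theorems. They are written in
elementary terms; the file `GC/N1.lean` proves that they are the same as the definitions in terms
of cohomology groups (`GC/S0.lean`).
-/

namespace UnrGal

universe u

/-- The group `ℚ_l/ℤ_l`. -/
abbrev QZ (l : ℕ) [Fact l.Prime] : Type :=
  ℚ_[l] ⧸ LinearMap.range (Algebra.linearMap ℤ_[l] ℚ_[l])

/-- The absolute Galois group of the field `K`. -/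
abbrev Gal (K : Type u) [Field K] : Type u := AlgebraicClosure K ≃ₐ[K] AlgebraicClosure K

/-- The alternating differential of a function of `n` variables. -/
noncomputable def diff {l : ℕ} [Fact l.Prime] {X : Type u} {n : ℕ} (c : (Fin n → X) → QZ l)
    (x : Fin (n + 1) → X) : QZ l :=
  ∑ j : Fin (n + 1), (-1 : ℤ) ^ (j : ℕ) • c fun i => x (j.succAbove i)

/-- The function `c` is a homogeneous continuous cochain in `n` variables, that is of degree
`n - 1`, of the topological group `Γ`, which acts on `ℚ_l/ℤ_l` by the character `χ`, and it comes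
from the quotient of `Γ` by the subgroup `I`: it is equivariant, and it is invariant under right
multiplication by the elements of `I` and by those of an open subgroup. -/
def IsCochain {l : ℕ} [Fact l.Prime] {Γ : Type u} [Group Γ] [TopologicalSpace Γ]
    (χ : Γ → ℤ_[l]) (I : Subgroup Γ) {n : ℕ} (c : (Fin n → Γ) → QZ l) : Prop :=
  (∀ (g : Γ) (x : Fin n → Γ), c (fun i => g * x i) = χ g • c x) ∧
  (∀ x y : Fin n → Γ, (∀ i, y i ∈ I) → c (fun i => x i * y i) = c x) ∧
  ∃ U : Subgroup Γ, IsOpen (U : Set Γ) ∧
    ∀ x y : Fin n → Γ, (∀ i, y i ∈ U) → c (fun i => x i * y i) = c x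

/-- The `w`-th power of the `l`-adic cyclotomic character. -/
noncomputable def cyc (l w : ℕ) [Fact l.Prime] (K : Type u) [Field K] (g : Gal K) : ℤ_[l] :=
  ((cyclotomicCharacter (AlgebraicClosure K) l
    (g : AlgebraicClosure K ≃+* AlgebraicClosure K) : ℤ_[l]ˣ) : ℤ_[l]) ^ w

/-- The class of the cocycle `c` of degree `n` with values in `ℚ_l/ℤ_l(w)` is unramified at the
valuation ring `O` of the algebraic closure of `K`: its restriction to the decomposition group of
`O` is the sum of a cochain `a` which comes from the quotient by the inertia group, that is from the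
absolute Galois group of the residue field, and of the coboundary of a cochain `b`. -/
def IsUnrAt {l : ℕ} [Fact l.Prime] (w : ℕ) {K : Type u} [Field K]
    (O : ValuationSubring (AlgebraicClosure K)) {n : ℕ} (c : (Fin (n + 1) → Gal K) → QZ l) :
    Prop :=
  ∃ (a : (Fin (n + 1) → O.decompositionSubgroup K) → QZ l)
    (b : (Fin n → O.decompositionSubgroup K) → QZ l),
    IsCochain (fun g : O.decompositionSubgroup K => cyc l w K g) (O.inertiaSubgroup K) a ∧
    IsCochain (fun g : O.decompositionSubgroup K => cyc l w K g) ⊥ b ∧ ∀ x, c (fun i => x i) = a x + diff b x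

/-- The function `c` is a cocycle of the absolute Galois group of `K` of degree `n` with values in
`ℚ_l/ℤ_l(w)` and its class is unramified at all valuation rings whose trace on `K` is a discrete
valuation ring. -/
def IsUnrCocycle {l : ℕ} [Fact l.Prime] (w : ℕ) {K : Type u} [Field K] {n : ℕ}
    (c : (Fin (n + 1) → Gal K) → QZ l) : Prop :=
  IsCochain (cyc l w K) ⊥ c ∧ (∀ x, diff c x = 0) ∧
  ∀ O : ValuationSubring (AlgebraicClosure K),
    IsDiscreteValuationRing (O.comap (algebraMap K (AlgebraicClosure K))) → IsUnrAt w O c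

/-- The function `c` is a coboundary. -/
def IsCoboundary {l : ℕ} [Fact l.Prime] (w : ℕ) {K : Type u} [Field K] {n : ℕ}
    (c : (Fin (n + 1) → Gal K) → QZ l) : Prop :=
  ∃ b : (Fin n → Gal K) → QZ l, IsCochain (cyc l w K) ⊥ b ∧ ∀ x, c x = diff b x

/-- The number `N` kills the unramified classes of `H^i (K, ℚ_l/ℤ_l(w))`, for all prime numbers
`l ≠ p`, where `i ≥ 1`. -/
def Kills (p w i N : ℕ) (K : Type u) [Field K] : Prop :=
  ∀ (l : ℕ) [Fact l.Prime], l ≠ p → ∀ c : (Fin (i + 1) → Gal K) → QZ l,
    IsUnrCocycle w c → IsCoboundary w fun x => N • c x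

/-- The cochain `c'` of the extension `L` of `K` is the restriction of the cochain `c`, with respect
to some embedding `φ` of the algebraic closures. -/
def IsRes {l : ℕ} [Fact l.Prime] {K L : Type u} [Field K] [Field L] [Algebra K L] {n : ℕ}
    (c : (Fin n → Gal K) → QZ l) (c' : (Fin n → Gal L) → QZ l) : Prop :=
  ∃ φ : AlgebraicClosure K →+* AlgebraicClosure L,
    (∀ a : K, φ (algebraMap K _ a) = algebraMap L _ (algebraMap K L a)) ∧
    ∀ (x : Fin n → Gal L) (y : Fin n → Gal K), (∀ i z, φ (y i z) = x i (φ z)) → c' x = c y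

/-- For all prime numbers `l ≠ p`, the unramified classes of `H^i (K, ℚ_l/ℤ_l(w))`, multiplied by
`D`, come in the extension `L` of `K` and `k` from unramified classes of `k`, where `i ≥ 1`. -/
def Descends (p w i D : ℕ) (k K L : Type u) [Field k] [Field K] [Field L] [Algebra k L]
    [Algebra K L] : Prop :=
  ∀ (l : ℕ) [Fact l.Prime], l ≠ p → ∀ (c : (Fin (i + 1) → Gal K) → QZ l)
    (c' : (Fin (i + 1) → Gal L) → QZ l), IsUnrCocycle w c → IsRes c c' →
    ∃ (b : (Fin (i + 1) → Gal k) → QZ l) (b' : (Fin (i + 1) → Gal L) → QZ l),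
      IsUnrCocycle w b ∧ IsRes b b' ∧ IsCoboundary w fun x => D • c' x - b' x

end UnrGal
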