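import Pool.Agent.Lib.MP_859dd5_ag.GC.N0
import Pool.Agent.Lib.MP_859dd5_ag.S.DStm

/-!
# Bounds for the unramified classes of a subfield
-/

namespace UnrGal

open UnrA.Fer

universe u

/-- For all prime numbers `l ≠ p`, the unramified classes of `H^i (K, ℚ_l/ℤ_l(w))`, multiplied by
`E`, come in `L` from unramified classes of `k`; and if `C` kills the unramified classes of
`H^i (k, ℚ_l/ℤ_l(w))` for all `l ≠ p`, and `L` is finite over a purely transcendental extension
`K(u)` of `K`, then `C E [L : K(u)]` kills the unramified classes of `H^i (K, ℚ_l/ℤ_l(w))` for all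
`l ≠ p`. -/
def IsBounded (p w i E : ℕ) (k K L : Type u) [Field k] [Field K] [Field L]
    [Algebra k L] [Algebra K L] : Prop :=
  Descends p w i E k K L ∧ ∀ (r : ℕ) (u : Fin r → L) (C : ℕ), IsFiniteOver K u →
    Kills p w i C k → Kills p w i (C * E * degreeOver K u) K

end UnrGal
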