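import Pool.Agent.Lib.MP_859dd5_ag.GC.N0
import Pool.Agent.Lib.MP_859dd5_ag.EQ.Base

/-!
# Bounds for the unramified classes of products of elliptic curves
-/

namespace UnrGal

open UnrA WeierstrassCurve

universe u

/-- For all prime numbers `l ≠ p`, the number `D` kills the unramified classes of
`H^i (R, ℚ_l/ℤ_l(w))`, for the function field `R` of the product over `k` of the curves
`E (e i)`. -/
def KillsProduct (p w i : ℕ) {κ : Type u} [Field κ] {l : ℕ} (E : Fin l → WeierstrassCurve κ)
    (k : Type u) [Field k] [Algebra κ k] {ι : Type} (e : ι → Fin l) (D : ℕ) : Prop :=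
  ∀ (R : Type u) [Field R] [Algebra κ R] [Algebra k R] [IsScalarTower κ k R] (x y : ι → R),
    IsProd E k e x y → Kills p w i D R

end UnrGal
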