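import Pool.Agent.Lib.MP_859dd5_ag.Mg.G062
import Pool.Agent.Lib.MP_859dd5_ag.GC.N2
import Pool.Agent.Lib.MP_859dd5_ag.S.FN

/-!
# Transfer from functors to Galois cohomology
-/

namespace GC

open UnrA UnrA.Fer UnrGal

universe u v

section

variable {p : ℕ} [Fact p.Prime] {w n : ℕ} {k K L : Type u} [Field k] [Field K] [Field L]
  [Algebra k L] [Algebra K L]

theorem kills_iff_killsAll [CharP K p] {C : ℕ} : Kills p w (n + 2) C K ↔
    ∀ (l : ℕ) [Fact l.Prime] (hpl : p ≠ l), KillsAll (GalU.{u} hpl w n) C K :=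
  kills_iff.trans killsGal_iff

theorem descends_iff_comesFrom [CharP k p] [CharP K p] [CharP L p] {D : ℕ} :
    Descends p w (n + 2) D k K L ↔
    ∀ (l : ℕ) [Fact l.Prime] (hpl : p ≠ l), ComesFrom (GalU.{u} hpl w n) D k K L := by
  rw [descends_iff]
  constructor
  · intro h l _ hpl ξ hξ
    obtain ⟨y, hy, hyx⟩ := h l hpl.symm (galU_equiv hpl K ξ) hξ
    exact ⟨⟨y, mem_gobj y⟩, hy, Subtype.ext hyx⟩
  · intro h l _ hpl x hx
    obtain ⟨y, hy, hyx⟩ := h l hpl.symm ⟨x, mem_gobj x⟩ hx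
    exact ⟨y.1, hy, Subtype.ext_iff.mp hyx⟩

theorem descends_iff_killsRel [Algebra k K] [CharP k p] [CharP K p] {D : ℕ} :
    Descends p w (n + 2) D k K K ↔
    ∀ (l : ℕ) [Fact l.Prime] (hpl : p ≠ l), KillsRel (GalU.{u} hpl w n) D k K := by
  rw [descends_iff_comesFrom]
  have h : ∀ (l : ℕ) [Fact l.Prime] (hpl : p ≠ l),
      KillsRel (GalU.{u} hpl w n) D k K ↔ ComesFrom (GalU.{u} hpl w n) D k K K := by
    intro l _ hpl
    have h1 : ∀ ξ, (GalU.{u} hpl w n).map (algebraMap K K) ξ = ξ :=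
      fun ξ => (GalU.{u} hpl w n).isFunctor.1 ξ
    constructor
    · intro h ξ hξ
      obtain ⟨y, hy, hyx⟩ := h ξ hξ
      exact ⟨y, hy, by rw [hyx, h1]⟩
    · intro h ξ hξ
      obtain ⟨y, hy, hyx⟩ := h ξ hξ
      exact ⟨y, hy, by rw [hyx, h1]⟩
  constructor
  · intro h1 l _ hpl
    exact (h l hpl).mpr (h1 l hpl)
  · intro h1 l _ hpl
    exact (h l hpl).mp (h1 l hpl)

theorem isBounded_of [CharP k p] [CharP K p] [CharP L p] {E : ℕ}
    (h : ∀ (l : ℕ) [Fact l.Prime] (hpl : p ≠ l), IsBoundedBy (GalU.{u} hpl w n) E k K L) :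
    IsBounded p w (n + 2) E k K L := by
  refine ⟨descends_iff_comesFrom.mpr fun l _ hpl => (h l hpl).1, fun r u C hu hC => ?_⟩
  rw [kills_iff_killsAll] at hC ⊢
  exact fun l _ hpl => (h l hpl).2 r u C hu (hC l hpl)

end

end GC
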