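import Pool.Agent.Lib.MP_859dd5_ag.Mg.G043
import Pool.Agent.Lib.MP_859dd5_ag.Mg.G050

/-!
# The varieties `z ^ p - z = ∑ g_j(s_j)`
-/

namespace GC

open UnrA UnrA.Fer UnrG Polynomial UnrGal

universe u z

section

variable {A : UFun.{u, z}} {k K L : Type u} [Field k] [Field K] [Field L]

theorem killsAll_mono {C D : ℕ} (h : KillsAll A C K) (hD : C ∣ D) : KillsAll A D K := by
  obtain ⟨c, rfl⟩ := hD
  intro ξ hξ
  rw [mul_comm, mul_smul, h ξ hξ, smul_zero]

variable [Algebra k L] [Algebra K L]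

theorem comesFrom_mono {C D : ℕ} (h : ComesFrom A C k K L) (hD : C ∣ D) :
    ComesFrom A D k K L := by
  obtain ⟨c, rfl⟩ := hD
  intro ξ hξ
  obtain ⟨y, hy, hyx⟩ := h ξ hξ
  exact ⟨c • y, nsmul_mem hy c, by rw [map_nsmul, hyx, mul_comm, mul_smul]⟩

theorem isBoundedBy_mono {C D : ℕ} (h : IsBoundedBy A C k K L) (hD : C ∣ D) :
    IsBoundedBy A D k K L :=
  ⟨comesFrom_mono h.1 hD, fun r u B hu hB => killsAll_mono (h.2 r u B hu hB)
    (mul_dvd_mul_right (mul_dvd_mul_left B hD) _)⟩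

end

section

variable {p : ℕ} [Fact p.Prime] {w n : ℕ} {k K L : Type u} [Field k] [Field K] [Field L]

theorem kills_mono [CharP K p] {C D : ℕ} (h : Kills p w (n + 2) C K) (hD : C ∣ D) :
    Kills p w (n + 2) D K := by
  rw [kills_iff_killsAll] at h ⊢
  exact fun l _ hpl => killsAll_mono (h l hpl) hD

variable [Algebra k L] [Algebra K L]

theorem isBounded_mono [CharP k p] [CharP K p] [CharP L p] {C D : ℕ}
    (h : IsBounded p w (n + 2) C k K L) (hD : C ∣ D) : IsBounded p w (n + 2) D k K L :=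
  ⟨descends_iff_comesFrom.mpr fun l _ hpl =>
      comesFrom_mono (descends_iff_comesFrom.mp h.1 l hpl) hD,
    fun r u B hu hB => kills_mono (h.2 r u B hu hB) (mul_dvd_mul_right (mul_dvd_mul_left B hD) _)⟩

end

theorem artinSchreier_sum {p f N : ℕ} (hp : p.Prime) (hf : 0 < f) (hN : N.Prime) (hpN : p ≠ N)
    (n' M : ℕ) {w : ℕ} (hw : 0 < w) :
    ∃ E : ℕ, 0 < E ∧
      ∀ (k K : Type u) [Field k] [Field K] [CharP k p] [Algebra k K] (g : Fin n' → k[X])
        (s : Fin n' → K) (z : K), 2 ≤ n' → (∀ j, IsAdditiveForm p M (g j)) →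
        AlgebraicIndependent k s → z ^ p - z = ∑ j, aeval (s j) (g j) →
        IntermediateField.adjoin k (Set.range s ∪ {z}) = ⊤ → ∀ C : ℕ,
        (∀ i, 2 ≤ i → Kills p w i C k → Kills p w i (C * E) K) ∧
          ∀ A : UFun.{u, u}, KillsAll A C k → KillsAll A (C * E) K := by
  have : Fact p.Prime := ⟨hp⟩
  obtain ⟨E, s₀, hE, hs₀, h0⟩ := artinSchreier_gal.{u} hp hf hN hpN 0 n' M hw
  refine ⟨E * (p ^ n').factorial, Nat.mul_pos hE (Nat.factorial_pos _), ?_⟩
  intro k K _ _ _ _ g s z hn hg hs hz hgen C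
  have hcK : CharP K p := charP_of_injective_ringHom (algebraMap k K).injective p
  obtain ⟨L, _, _, _, t, h1, h2, h3, h4, h5, h6, h7⟩ :=
    exists_cover_move (by omega) hg hs hz hgen
  let κ := ULift.{u} (GaloisField p (f * s₀))
  have hκ : Nat.card κ = (p ^ f) ^ s₀ := by
    rw [Nat.card_ulift, GaloisField.card p (f * s₀) (Nat.mul_pos hf hs₀).ne', pow_mul]
  have hX : IsASProduct p N M (Fin.elim0 : Fin 0 → k) (Fin.elim0 : Fin 0 → k) g
      (Fin.elim0 : Fin 0 → L) (Fin.elim0 : Fin 0 → L) (fun j => algebraMap K L (s j)) t := by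
    refine ⟨fun j => j.elim0, fun j => j.elim0, hg, h4, ?_, ?_⟩
    · have h8 := h5.comp (Equiv.emptySum (Fin 0) (Fin n')) (Equiv.injective _)
      have h9 : (fun j => algebraMap K L (s j)) ∘ (Equiv.emptySum (Fin 0) (Fin n')) =
          Sum.elim (Fin.elim0 : Fin 0 → L) (fun j => algebraMap K L (s j)) := by
        funext x
        rcases x with x | x
        · exact x.elim0
        · rfl
      rwa [h9] at h8
    · rw [Set.range_eq_empty (Fin.elim0 : Fin 0 → L), Set.union_empty, Set.empty_union]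
      exact h6
  obtain ⟨h8, h9⟩ := h0 κ k K L hκ _ _ g _ _ _ t hX (1 : k) (fun h => absurd h (lt_irrefl 0)) 1
  -- the characters
  have hsh : ∀ (c : Fin 0 → ZMod N) (d : Fin 0 → ZMod p) (d' : Fin n' → ZMod p),
      ¬ (d = 0 ∧ d' = 0) →
      IsShifted K (1 : k) (Fin.elim0 : Fin 0 → L) (Fin.elim0 : Fin 0 → L)
        (fun j => algebraMap K L (s j)) t c d d' ∨ HasPair p c d' := by
    intro c d d' hne
    by_cases hpair : ∃ i j, i ≠ j ∧ d' i ≠ 0 ∧ d' j ≠ 0
    · exact Or.inr (Or.inr (Or.inl hpair))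
    push Not at hpair
    obtain ⟨j, hj⟩ : ∃ j, d' j ≠ 0 := by
      by_contra h
      push Not at h
      exact hne ⟨Subsingleton.elim _ _, funext h⟩
    obtain ⟨i, hi⟩ : ∃ i : Fin n', i ≠ j := by
      have : Nontrivial (Fin n') := Fin.nontrivial_iff_two_le.mpr hn
      exact exists_ne j
    have hi0 : d' i = 0 := by
      by_contra h
      exact h (hpair j i hi.symm hj)
    let τ : Fin n' → ZMod p := Pi.single j 1 + Pi.single i (-1)
    have hτ : ∑ l, τ l = 0 := by
      simp only [τ, Pi.add_apply, Finset.sum_add_distrib, Finset.sum_pi_single', Finset.mem_univ,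
        if_true]
      exact add_neg_cancel 1
    have hdvd : p ∣ ∑ l, (τ l).val := by
      rw [← CharP.cast_eq_zero_iff (ZMod p) p, Nat.cast_sum]
      simpa using hτ
    obtain ⟨σ, h10, h11⟩ := h7 (fun l => (τ l).val) hdvd
    refine Or.inl ⟨0, 0, τ, σ, fun a => ?_, h10, fun l => l.elim0, fun l => l.elim0,
      fun l => h10 (s l), h11, Or.inr ?_⟩
    · rw [← h1, h10]
    · have h12 : ∑ l, d' l * τ l = d' j := by
        simp only [τ, Pi.add_apply, mul_add, Finset.sum_add_distrib, Pi.single_apply, mul_ite,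
          mul_one, mul_zero, mul_neg, Finset.sum_ite_eq', Finset.mem_univ, if_true, hi0, neg_zero,
          add_zero]
      rw [Finset.univ_eq_empty, Finset.sum_empty, zero_add, h12]
      exact hj
  -- the degree
  let u : Fin 0 → L := Fin.elim0
  have hu : IsFiniteOver K u :=
    ⟨algebraicIndependent_empty_type_iff.mpr (algebraMap K L).injective,
      Module.Finite.right K _ L⟩
  have hdeg : degreeOver K u ∣ (p ^ n').factorial := by
    have h10 : degreeOver K u = Module.finrank K L := by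
      unfold degreeOver
      rw [Set.range_eq_empty u, IntermediateField.adjoin_empty]
      exact IntermediateField.finrank_bot'
    rw [h10]
    exact h3
  have hdiv : C * (E * 1) * degreeOver K u ∣ C * (E * (p ^ n').factorial) := by
    rw [mul_one, mul_assoc]
    exact mul_dvd_mul_left C (mul_dvd_mul_left E hdeg)
  refine ⟨fun i hi hk => ?_, fun A hk => ?_⟩
  · obtain ⟨m, rfl⟩ : ∃ m, i = m + 2 := ⟨i - 2, by omega⟩
    have h10 := h8 (m + 2) hi fun c d d' _ hne => by
      rcases hsh c d d' hne with h | h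
      · exact Or.inl h
      · exact Or.inr (Or.inr (Or.inl h))
    exact kills_mono (h10.2 0 u C hu hk) hdiv
  · have h10 := h9 A fun c d d' _ hne => by
      rcases hsh c d d' hne with h | h
      · exact Or.inl h
      · exact Or.inr (Or.inr (Or.inl h))
    exact killsAll_mono (h10.2 0 u C hu hk) hdiv

theorem artinSchreier_both {p f N : ℕ} (hp : p.Prime) (hf : 0 < f) (hN : N.Prime) (hpN : p ≠ N)
    (n n' M : ℕ) {w : ℕ} (hw : 0 < w) :
    ∃ E s₀ : ℕ, 0 < E ∧ 0 < s₀ ∧
      (∀ (k K : Type u) [Field k] [Field K] [CharP k p] [Algebra k K] (g : Fin n' → k[X])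
        (s : Fin n' → K) (z : K), 2 ≤ n' → (∀ j, IsAdditiveForm p M (g j)) →
        AlgebraicIndependent k s → z ^ p - z = ∑ j, aeval (s j) (g j) →
        IntermediateField.adjoin k (Set.range s ∪ {z}) = ⊤ → ∀ C : ℕ,
        (∀ i, 2 ≤ i → Kills p w i C k → Kills p w i (C * E) K) ∧
          ∀ A : UFun.{u, u}, KillsAll A C k → KillsAll A (C * E) K) ∧
      ∀ (κ k K L : Type u) [Field κ] [Field k] [Field K] [Field L] [CharP k p]
        [Algebra k L] [Algebra K L] (_ : Nat.card κ = (p ^ f) ^ s₀) (a b : Fin n → k)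
        (g : Fin n' → k[X]) (x y : Fin n → L) (s t : Fin n' → L)
        (_ : IsASProduct p N M a b g x y s t) (ζ : k) (_ : 0 < n → IsPrimitiveRoot ζ N) (H : ℕ),
        (∀ i, 2 ≤ i → (∀ (c : Fin n → ZMod N) (d : Fin n → ZMod p) (d' : Fin n' → ZMod p),
          (∀ j, c j = 0 ↔ d j = 0) → ¬ (d = 0 ∧ d' = 0) →
          IsShifted K ζ x y s t c d d' ∨
          (d' = 0 ∧ IsTrivialIn κ k p N H
            (∏ j, a j ^ (c j).val) (∑ j, ((d j).val : k) * b j)) ∨
          HasPair p c d' ∨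
          Descends p w i H k (mixField k x y s t c d d') (mixField k x y s t c d d')) →
          IsBounded p w i (E * H) k K L) ∧
        ∀ (A : UFun.{u, u})
        (_ : ∀ (c : Fin n → ZMod N) (d : Fin n → ZMod p) (d' : Fin n' → ZMod p),
          (∀ j, c j = 0 ↔ d j = 0) → ¬ (d = 0 ∧ d' = 0) →
          IsShifted K ζ x y s t c d d' ∨
          (A.Specializes ∧ A.HasWeight κ ((p ^ f) ^ s₀) w ∧ d' = 0 ∧ IsTrivialIn κ k p N H
            (∏ j, a j ^ (c j).val) (∑ j, ((d j).val : k) * b j)) ∨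
          HasPair p c d' ∨ KillsRel A H k (mixField k x y s t c d d')),
        IsBoundedBy A (E * H) k K L := by
  have : Fact p.Prime := ⟨hp⟩
  obtain ⟨E₁, s₀, hE₁, hs₀, h1⟩ := artinSchreier_gal.{u} hp hf hN hpN n n' M hw
  obtain ⟨E₂, hE₂, h2⟩ := artinSchreier_sum.{u} hp hf hN hpN n' M hw
  refine ⟨E₁ * E₂, s₀, Nat.mul_pos hE₁ hE₂, hs₀, ?_, ?_⟩
  · intro k K _ _ _ _ g s z hn hg hs hz hgen C
    have hcK : CharP K p := charP_of_injective_ringHom (algebraMap k K).injective p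
    have hdiv : C * E₂ ∣ C * (E₁ * E₂) := mul_dvd_mul_left C (dvd_mul_left E₂ E₁)
    obtain ⟨h3, h4⟩ := h2 k K g s z hn hg hs hz hgen C
    refine ⟨fun i hi hk => ?_, fun A hk => killsAll_mono (h4 A hk) hdiv⟩
    obtain ⟨m, rfl⟩ : ∃ m, i = m + 2 := ⟨i - 2, by omega⟩
    exact kills_mono (h3 (m + 2) hi hk) hdiv
  · intro κ k K L _ _ _ _ _ _ _ hκ a b g x y s t hX ζ hζ H
    have hcL : CharP L p := charP_of_injective_ringHom (algebraMap k L).injective p
    have hcK : CharP K p :=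
      (RingHom.charP_iff (algebraMap K L) (algebraMap K L).injective p).mpr hcL
    have hdiv : E₁ * H ∣ E₁ * E₂ * H := mul_dvd_mul_right (dvd_mul_right E₁ E₂) H
    obtain ⟨h3, h4⟩ := h1 κ k K L hκ a b g x y s t hX ζ hζ H
    refine ⟨fun i hi hk => ?_, fun A hk => isBoundedBy_mono (h4 A hk) hdiv⟩
    obtain ⟨m, rfl⟩ : ∃ m, i = m + 2 := ⟨i - 2, by omega⟩
    exact isBounded_mono (h3 (m + 2) hi hk) hdiv

end GC
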