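import Pool.Agent.Lib.MP_859dd5_ag.Mg.G001
import Pool.Agent.Lib.MP_859dd5_ag.GC.S1
import Pool.Agent.Lib.MP_859dd5_ag.S.Dia

/-!
# The theorem on families of diagonal hypersurfaces with the Galois cohomology groups
-/

namespace GC

open UnrA UnrA.Fer Polynomial UnrGal

universe u

theorem diagonal_gal (p f N n w : ℕ) (hp : p.Prime) (hf : 0 < f) (hN : 2 ≤ N)
    (hpN : p.Coprime N) (hn : 0 < n) :
    ∃ s : ℕ, 0 < s ∧ N * (p ^ f - 1) ∣ (p ^ f) ^ s - 1 ∧
      ∀ P : (Fin (n + 2) → ZMod N) → ℤ[X], ∃ E : ℕ, 0 < E ∧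
      ∀ {κ k K L : Type u} [Field κ] [Fintype κ] [Field k] [Field K] [Field L] [Algebra κ k]
        [Algebra k L] [Algebra K L] (_ : Fintype.card κ = (p ^ f) ^ s)
        {a : Fin (n + 2) → k} {x : Fin (n + 2) → L} (_ : IsDiagonal N a x) {ζ : κ}
        (_ : IsPrimitiveRoot ζ N) {d : ℕ} {u : Fin d → L} (_ : IsFiniteOver K u) (D : ℕ),
        (∀ i, 2 ≤ i → (∀ α : Fin (n + 2) → ZMod N, Fer.IsMinimalZeroSum α →
            IsExplicit D p N w K a x ζ α ∨
              Descends p w i D k (monomialField N k x α) (monomialField N k x α)) →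
          Descends p w i (E * D) k K L ∧
            ∀ C : ℕ, Kills p w i C k → Kills p w i (C * (E * D) * degreeOver K u) K) ∧
        (∀ A : UFun.{u, u}, A.HasWeight κ (Fintype.card κ) w → A.Specializes →
          (∀ α : Fin (n + 2) → ZMod N, Fer.IsMinimalZeroSum α →
            IsExplicit D p N w K a x ζ α ∨ KillsOver A D k (monomialField N k x α) ∨
              IsFrobenius A D N w κ a (P α) α) →
          ComesFrom A (E * D) k K L ∧
            ∀ C : ℕ, KillsAll A C k → KillsAll A (C * (E * D) * degreeOver K u) K) ∧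
        ((∀ α : Fin (n + 2) → ZMod N, Fer.IsMinimalZeroSum α →
            IsExplicit D p N w K a x ζ α) →
          ∀ m C : ℕ, KillsMilnor m w C k →
            KillsMilnor m w (C * (E * D) * degreeOver K u) K) := by
  have : Fact p.Prime := ⟨hp⟩
  obtain ⟨s, hs, hdiv, h1⟩ := main_diagonal.{u, u} p f N n w hp hf hN hpN hn
  refine ⟨s, hs, hdiv, fun P => ?_⟩
  obtain ⟨E, hE, h2⟩ := h1 P
  refine ⟨E, hE, ?_⟩
  intro κ k K L _ _ _ _ _ _ _ _ hκ a x hX ζ hζ d u hu D
  obtain ⟨h3, h4⟩ := h2 hκ hX hζ hu D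
  refine ⟨fun i hi hk => ?_, h3, h4⟩
  have hcκ : CharP κ p := charP_of_card hp (r := f * s) (Nat.mul_pos hf hs)
    (by rw [Nat.card_eq_fintype_card, hκ, pow_mul])
  have hck : CharP k p := charP_of_injective_ringHom (algebraMap κ k).injective p
  have hcL : CharP L p := charP_of_injective_ringHom (algebraMap k L).injective p
  have hcK : CharP K p := (RingHom.charP_iff (algebraMap K L) (algebraMap K L).injective p).mpr hcL
  obtain ⟨n', rfl⟩ : ∃ n', i = n' + 2 := ⟨i - 2, by omega⟩
  have h5 : ∀ (l : ℕ) [Fact l.Prime] (hpl : p ≠ l),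
      ComesFrom (GalU.{u} hpl w n') (E * D) k K L ∧ ∀ C : ℕ, KillsAll (GalU.{u} hpl w n') C k →
        KillsAll (GalU.{u} hpl w n') (C * (E * D) * degreeOver K u) K := by
    intro l _ hpl
    refine h3 (GalU hpl w n') ?_ (galU_specializes hpl) fun α hα => ?_
    · rw [hκ, ← pow_mul]
      exact galU_hasWeight hpl κ (f * s)
    · rcases hk α hα with h | h
      · exact Or.inl h
      · have hcm : CharP (monomialField N k x α) p :=
          charP_of_injective_ringHom (algebraMap k (monomialField N k x α)).injective p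
        exact Or.inr (Or.inl (descends_iff_killsRel.mp h l hpl))
  refine ⟨descends_iff_comesFrom.mpr fun l _ hpl => (h5 l hpl).1, fun C hC => ?_⟩
  rw [kills_iff_killsAll] at hC ⊢
  exact fun l _ hpl => (h5 l hpl).2 C (hC l hpl)

end GC
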