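import Pool.Agent.Lib.MP_859dd5_ag.EQ.Clean
import Pool.Agent.Lib.MP_859dd5_ag.EQ.Stm
import Pool.Agent.Lib.MP_859dd5_ag.Mg.G062
import Pool.Agent.Lib.MP_859dd5_ag.GC.N3

/-!
# The theorem on quotients of products of elliptic curves with the Galois cohomology groups
-/

namespace GC

open UnrA UnrG Polynomial WeierstrassCurve UnrGal

universe u z

theorem elliptic_gal {κ L M : Type u} [Field κ] [Finite κ] [Field L] [Field M] [Algebra κ M]
    [Algebra L M] {p q l n : ℕ} [CharP κ p] {E : Fin l → WeierstrassCurve κ} {a : Fin l → ℤ}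
    (hE : AreCurves.{u} q E a)
    {s : ℕ} {u : Fin s → M} (hu : AlgebraicIndependent L u)
    [FiniteDimensional (IntermediateField.adjoin L (Set.range u)) M]
    {K : IntermediateField κ M} {e : Fin n → Fin l} {x y : Fin n → M} (hM : IsProd E K e x y)
    (G : Subgroup (M ≃ₐ[κ] M)) [Finite G] (ρ : G → Equiv.Perm (Fin n)) (ε : G → Fin n → ℤˣ)
    (hG : IsAct E K e x y L G ρ ε) (w D : ℕ) (hw : 0 < w) (hD : 0 < D) :
    ∃ N : ℕ, 0 < N ∧
      (∀ i, 2 ≤ i → (∀ I : Finset (Fin n), IsSettled q E a K e G ρ ε I ∨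
          KillsProduct p w i E (fixI K G ρ ε I) (fun i : {i // i ∈ I} => e i) D) →
        Kills p w i N L) ∧
      (∀ A : UFun.{u, z}, A.HasWeight κ q w → (∀ I : Finset (Fin n),
        IsSettled q E a K e G ρ ε I ∨
          KillsProd A E (fixI K G ρ ε I) (fun i : {i // i ∈ I} => e i) D) →
        ∀ ξ ∈ A.nr L, N • ξ = 0) ∧
      ((∀ I : Finset (Fin n), IsSettled q E a K e G ρ ε I) → ∀ (m : ℕ) (ξ : MK m L),
        ξ ∈ MK.deg m L w → MK.Unr ξ → N • ξ = 0) := by
  let _ : Fintype κ := Fintype.ofFinite κ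
  have hq' : q = Fintype.card κ := by rw [← hE.card, Nat.card_eq_fintype_card]
  subst hq'
  obtain ⟨N, hN, h⟩ := clean_kill.{u, z} hE u hu K e x y hM.point hM.ind hM.gen G hG.fix ρ ε
    hG.aff hw hD
  obtain ⟨N', hN', h'⟩ := clean_kill.{u, u} hE u hu K e x y hM.point hM.ind hM.gen G hG.fix ρ ε
    hG.aff hw hD
  refine ⟨N * (2 * N'), by positivity, fun i hi H => ?_, fun A hA H ξ hξ => ?_,
    fun H m ξ hξ hξu => ?_⟩
  · have hp : p.Prime := (CharP.char_is_prime_or_zero κ p).resolve_right fun h0 => by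
      subst h0
      have := CharP.charP_to_charZero κ
      exact not_finite κ
    have : Fact p.Prime := ⟨hp⟩
    obtain ⟨⟨r, hr⟩, -, hr2⟩ := FiniteField.card κ p
    change Fintype.card κ = p ^ r at hr2
    have hcM : CharP M p := charP_of_injective_ringHom (algebraMap κ M).injective p
    have hcL : CharP L p :=
      (RingHom.charP_iff (algebraMap L M) (algebraMap L M).injective p).mpr hcM
    obtain ⟨i, rfl⟩ : ∃ n', i = n' + 2 := ⟨i - 2, by omega⟩
    rw [kills_iff, killsGal_iff]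
    intro l' _ hpl ξ hξ
    rw [mul_smul, mul_smul, h' (GalU hpl w i) (by rw [hr2]; exact galU_hasWeight hpl κ r)
      (fun I => (H I).imp_right fun h5 => fun R _ _ _ _ x y hR => ?_) ξ hξ, smul_zero, smul_zero]
    have hcR : CharP R p := charP_of_injective_ringHom (algebraMap κ R).injective p
    exact killsGal_iff.mp (kills_iff.mp (h5 R x y hR)) l' hpl
  · rw [mul_comm, mul_smul, h A hA H ξ hξ, smul_zero]
  · rw [mul_smul, milnor_kill (fun ξ hξ => h' (UFun.milnor m w)
      (UFun.milnor_hasWeight m w κ (Fintype.card κ)) (fun I => Or.inl (H I)) ξ hξ) hξ hξu,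
      smul_zero]

end GC
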