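import Pool.Agent.Lib.MP_859dd5_ag.Mg.G001
import Pool.Agent.Lib.MP_859dd5_ag.GC.S1

/-!
# The theorem on products of Fermat curves with the Galois cohomology groups
-/

namespace GC

open UnrA UnrA.Fer UnrG UnrGal

universe u

theorem fermat_gal {p f N : ℕ} (hp : p.Prime) (hf : 0 < f) (hN : N.Prime) (hpN : p ≠ N)
    (n : ℕ) {w : ℕ} (hw : 0 < w) :
    ∃ E s : ℕ, 0 < E ∧ 0 < s ∧ N * (p ^ f - 1) ∣ (p ^ f) ^ s - 1 ∧
      (∀ (κ k : Type u) [Field κ] [Field k] [Algebra κ k] (_ : Nat.card κ = (p ^ f) ^ s)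
        (c d : Fin n → ZMod N), HasBalancedPart p c d →
        ∀ (K : Type u) [Field K] [Algebra k K] (D : k) (X : Fin n → K) (v : K),
          IsCyclicCover N D X v c d →
            (∀ i, 2 ≤ i → Descends p w i E k K K) ∧ ∀ A : UFun.{u, u}, KillsRel A E k K) ∧
      ∀ (κ k K L : Type u) [Field κ] [Field k] [Field K] [Field L] [Algebra κ k] [Algebra k L]
        [Algebra K L] (_ : Nat.card κ = (p ^ f) ^ s) (a b : Fin n → k) (x y : Fin n → L)
        (_ : IsFermatProduct N a b x y) (ζ : k) (_ : IsPrimitiveRoot ζ N) (H : ℕ),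
      (∀ i, 2 ≤ i →
        ((∀ c d : Fin n → ZMod N, IsNondegenerate c d → ¬ (c = 0 ∧ d = 0) →
          IsMoved K ζ x y c d ∨
          IsPowerIn κ k N H (∏ j, (a j ^ (c j).val * b j ^ (d j).val)) ∨
          HasBalancedPart p c d ∨
          Descends p w i H k (monoField k x y c d) (monoField k x y c d)) →
        IsBounded p w i (E * H) k K L) ∧
        (IsPowerIn κ k N H (1 : k) → Kills p w i (H * (((p ^ f) ^ s) ^ w - 1)) k)) ∧
      (∀ (A : UFun.{u, u})
        (_ : ∀ c d : Fin n → ZMod N, IsNondegenerate c d → ¬ (c = 0 ∧ d = 0) →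
          IsMoved K ζ x y c d ∨
          (A.Specializes ∧ A.HasWeight κ ((p ^ f) ^ s) w ∧
            IsPowerIn κ k N H (∏ j, (a j ^ (c j).val * b j ^ (d j).val))) ∨
          HasBalancedPart p c d ∨ KillsRel A H k (monoField k x y c d)),
        IsBoundedBy A (E * H) k K L ∧
          (A.HasWeight κ ((p ^ f) ^ s) w → IsPowerIn κ k N H (1 : k) →
            KillsAll A (H * (((p ^ f) ^ s) ^ w - 1)) k)) ∧
      ∀ (m : ℕ)
        (_ : ∀ c d : Fin n → ZMod N, IsNondegenerate c d → ¬ (c = 0 ∧ d = 0) →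
          IsMoved K ζ x y c d ∨
          IsPowerIn κ k N H (∏ j, (a j ^ (c j).val * b j ^ (d j).val)) ∨
          HasBalancedPart p c d)
        (_ : IsPowerIn κ k N H (1 : k)) (r : ℕ) (u : Fin r → L), IsFiniteOver K u →
        KillsMilnor m w (2 * (H * (((p ^ f) ^ s) ^ w - 1) * (E * H) * degreeOver K u)) K := by
  have : Fact p.Prime := ⟨hp⟩
  obtain ⟨E, s, hE, hs, hdiv, h1, h2⟩ := product_main'.{u} hp hf hN hpN n hw
  refine ⟨E, s, hE, hs, hdiv, ?_, ?_⟩
  · intro κ k _ _ _ hκ c d hcd K _ _ D X v hX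
    have hcκ : CharP κ p := charP_of_card hp (r := f * s) (Nat.mul_pos hf hs)
      (by rw [hκ, pow_mul])
    have hck : CharP k p := charP_of_injective_ringHom (algebraMap κ k).injective p
    have hcK : CharP K p := charP_of_injective_ringHom (algebraMap k K).injective p
    refine ⟨fun i hi => ?_, fun A => h1 κ k hκ A c d hcd K D X v hX⟩
    obtain ⟨i, rfl⟩ : ∃ n, i = n + 2 := ⟨i - 2, by omega⟩
    exact descends_iff_killsRel.mpr fun l _ hpl => h1 κ k hκ _ c d hcd K D X v hX
  intro κ k K L _ _ _ _ _ _ _ hκ a b x y hX ζ hζ H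
  obtain ⟨h3, h4⟩ := h2 κ k K L hκ a b x y hX ζ hζ H
  have hcκ : CharP κ p := charP_of_card hp (r := f * s) (Nat.mul_pos hf hs)
    (by rw [hκ, pow_mul])
  have hck : CharP k p := charP_of_injective_ringHom (algebraMap κ k).injective p
  have hcL : CharP L p := charP_of_injective_ringHom (algebraMap k L).injective p
  have hcK : CharP K p := (RingHom.charP_iff (algebraMap K L) (algebraMap K L).injective p).mpr hcL
  have hwt : ∀ (l : ℕ) [Fact l.Prime] (hpl : p ≠ l) (n : ℕ),
      (GalU.{u} hpl w n).HasWeight κ ((p ^ f) ^ s) w := by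
    intro l _ hpl n
    rw [← pow_mul]
    exact galU_hasWeight hpl κ (f * s)
  refine ⟨fun i hi => ?_, h3, fun m hk => h4 m hk⟩
  obtain ⟨i, rfl⟩ : ∃ n, i = n + 2 := ⟨i - 2, by omega⟩
  refine ⟨fun hk => isBounded_of fun l _ hpl => (h3 _ fun c d hcd hne => ?_).1,
    fun hH => kills_iff_killsAll.mpr fun l _ hpl =>
      smul_eq_zero_of_isPowerIn (pow_pos (pow_pos hp.pos f) s) hκ (hwt l hpl i) hH⟩
  rcases hk c d hcd hne with h | h | h | h
  · exact Or.inl h
  · exact Or.inr (Or.inl ⟨galU_specializes hpl, hwt l hpl i, h⟩)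
  · exact Or.inr (Or.inr (Or.inl h))
  · have hcm : CharP (monoField k x y c d) p :=
      charP_of_injective_ringHom (algebraMap k (monoField k x y c d)).injective p
    exact Or.inr (Or.inr (Or.inr (descends_iff_killsRel.mp h l hpl)))

end GC
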