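import Pool.Agent.Lib.MP_859dd5_ag.GC.S1

/-!
# Properties of the Galois cohomology groups and of the unramified classes
-/

namespace GC

universe u

section contraction

variable {G M : Type*} [AddCommGroup M]

/-- The contraction with a point. -/
lemma d_cons (a : G) {n : ℕ} (c : (Fin (n + 1) → G) → M) (x : Fin (n + 1) → G) :
    d c (Fin.cons a x) + d (fun y : Fin n → G => c (Fin.cons a y)) x = c x := by
  unfold d
  rw [Fin.sum_univ_succ]
  have h0 : (fun i => (Fin.cons a x : Fin (n + 2) → G) ((0 : Fin (n + 2)).succAbove i)) = x := by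
    funext i
    simp
  have h1 : ∀ j : Fin (n + 1), (fun i => (Fin.cons a x : Fin (n + 2) → G) (j.succ.succAbove i)) =
      Fin.cons a fun i => x (j.succAbove i) := by
    intro j
    funext i
    refine Fin.cases ?_ (fun i => ?_) i
    · simp
    · simp
  rw [h0]
  simp only [h1, Fin.val_zero, pow_zero, one_smul, Fin.val_succ, pow_succ, mul_neg, mul_one,
    neg_smul, Finset.sum_neg_distrib]
  abel

end contraction

section

variable {K : Type u} [Field K] {l : ℕ} [Fact l.Prime] {w i : ℕ}

/-- The Galois cohomology groups of positive degree of an algebraically closed field vanish. -/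
theorem galH_eq_zero_of_isAlgClosed [IsAlgClosed K] (x : GalH l w (i + 1) K) : x = 0 := by
  have hs : Subsingleton (AbsGal K) := by
    refine ⟨fun g h => AlgEquiv.ext fun z => ?_⟩
    obtain ⟨a, rfl⟩ := IsAlgClosed.algebraMap_bijective_of_isIntegral
      (k := K) (K := AlgebraicClosure K) |>.2 z
    rw [g.commutes, h.commutes]
  obtain ⟨c, hc, rfl⟩ := exists_cls x
  rw [cls_eq_zero_iff]
  have hd : d c = 0 := hc.2
  refine ⟨fun y => c (Fin.cons 1 y), ⟨fun g _ y => ?_, fun y v _ => ?_, ⊤, isOpen_univ,
    fun y v _ => ?_⟩, ?_⟩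
  · rw [Subsingleton.elim g 1, one_smul]
    exact congrArg c (Subsingleton.elim _ _)
  · exact congrArg c (Subsingleton.elim _ _)
  · exact congrArg c (Subsingleton.elim _ _)
  · funext y
    have h := d_cons (1 : AbsGal K) c y
    rw [hd, Pi.zero_apply, zero_add] at h
    exact h

end

section

variable {p l w : ℕ} [Fact p.Prime] [Fact l.Prime] (hpl : p ≠ l) {K : Type u} [Field K] [CharP K p]

include hpl

/-- The group `H^(n+2) (K)` injects in `H^(n+2) (K(t))`. -/
theorem Hmap_ratFunc_injective (n : ℕ) :
    Function.Injective (Hmap l w (n + 2) (algebraMap K (RatFunc K))) := by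
  have hc : CharP (RatFunc K) p :=
    charP_of_injective_ringHom (algebraMap K (RatFunc K)).injective p
  refine (injective_iff_map_eq_zero _).mpr fun x hx => ?_
  have h := (GalU.{u} hpl w n).ratInjective K ⟨x, mem_gobj x⟩ (Subtype.ext hx)
  exact Subtype.ext_iff.mp h

/-- The map from `H^(n+2) (K)` to `H^(n+2) (K(t))` gives a bijection between the unramified
classes. -/
theorem bijOn_ratFunc_unr (n : ℕ) :
    Set.BijOn (Hmap l w (n + 2) (algebraMap K (RatFunc K))) (UnrH K (Tw l w) (n + 2))
      (UnrH (RatFunc K) (Tw l w) (n + 2)) :=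
  ⟨fun _ hx => (Hmap_ratFunc_mem_unr hpl).mpr hx,
    (Hmap_ratFunc_injective hpl n).injOn, fun _ hx => Hmap_ratFunc_surj hpl hx⟩

end

/-- The same number kills the unramified classes of `K` and of `K(t)`. -/
theorem killsGal_ratFunc {p : ℕ} [Fact p.Prime] {w n N : ℕ} {K : Type u} [Field K] [CharP K p] :
    KillsGal p w (n + 2) N (RatFunc K) ↔ KillsGal p w (n + 2) N K := by
  constructor
  · intro h l _ hl x hx
    apply Hmap_ratFunc_injective hl.symm n
    rw [map_nsmul, map_zero]
    exact h l hl _ ((Hmap_ratFunc_mem_unr hl.symm).mpr hx)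
  · intro h l _ hl x hx
    obtain ⟨y, hy, rfl⟩ := Hmap_ratFunc_surj hl.symm hx
    rw [← map_nsmul, h l hl y hy, map_zero]

/-- The same number kills the unramified classes of `K` and of `K(t)`, in elementary terms. -/
theorem kills_ratFunc {p : ℕ} [Fact p.Prime] {w n N : ℕ} {K : Type u} [Field K] [CharP K p] :
    UnrGal.Kills p w (n + 2) N (RatFunc K) ↔ UnrGal.Kills p w (n + 2) N K := by
  rw [kills_iff, kills_iff, killsGal_ratFunc]

/-- The unramified classes of `K(t)` come from `K`, in elementary terms. -/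
theorem descends_ratFunc {p : ℕ} [Fact p.Prime] {w n : ℕ} {K : Type u} [Field K] [CharP K p] :
    UnrGal.Descends p w (n + 2) 1 K (RatFunc K) (RatFunc K) := by
  have hc : CharP (RatFunc K) p :=
    charP_of_injective_ringHom (algebraMap K (RatFunc K)).injective p
  rw [descends_iff_killsRel]
  intro l _ hpl ξ hξ
  obtain ⟨y, hy, hyx⟩ := (GalU.{u} hpl w n).ratUnramified K ξ hξ
  exact ⟨y, hy, by rw [one_smul]; exact hyx⟩

end GC
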